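import Mathlib
import Pool.Agent.H493.PolMain

/-!
Q2 of MP_efb919_an: the normalised polarization constants of a fat Cantor set converge to
`2 (2^s - 1) ζ(s) λ(K)^{-s}`. In fact this holds for every nonempty compact `K ⊆ ℝ`
(with the value `∞` when `λ(K) = 0`).
-/

set_option autoImplicit false
open Filter Topology
open scoped ENNReal

namespace Pool.Agent.Results.MP_efb919_an.PolarizationLimit

theorem result :
    ∀ K : Set ℝ, K.Nonempty → IsCompact K → ∀ s : ℝ, 1 < s →
      Tendsto
        (fun N : ℕ =>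
          (⨆ (x : Fin N → ℝ) (_ : ∀ i, x i ∈ K),
              ⨅ y ∈ K, ∑ j, (ENNReal.ofReal |y - x j|) ^ (-s)) /
            ((N : ℝ≥0∞) ^ s))
        atTop
        (𝓝 (ENNReal.ofReal (2 * (2 ^ s - 1) * (riemannZeta s).re) *
          (MeasureTheory.volume K) ^ (-s))) := by
  intro K hne hK s hs
  rw [← Pool.Agent.H493.Pol.Cs_eq hs]
  exact Pool.Agent.H493.Pol.pol_limit hK hne (by linarith)

end Pool.Agent.Results.MP_efb919_an.PolarizationLimit
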